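import Mathlib

set_option autoImplicit false

namespace Pool.Agent.Helper290.Ultra

open Set Filter

universe u

/-- The index set carrying the independent family. -/
abbrev Idx (κ : Type u) : Type u := Finset κ × Finset (Finset κ)

def X {κ : Type u} (A : Set κ) : Set (Idx κ) := {x | ∃ t ∈ x.2, (t : Set κ) = (x.1 : Set κ) ∩ A}

def D {κ : Type u} (F : Finset κ) : Set (Idx κ) := {x | F ⊆ x.1}

open Classical in
noncomputable def Y {κ : Type u} (J : Set (Set κ)) (A : Set κ) : Set (Idx κ) :=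
  if A ∈ J then X A else (X A)ᶜ

theorem separate {κ : Type u} (s : Finset (Set κ)) :
    ∃ F : Finset κ, ∀ A ∈ s, ∀ B ∈ s, ((F : Set κ) ∩ A = (F : Set κ) ∩ B) → A = B := by
  classical
  have h : ∀ q : Set κ × Set κ, ∃ F : Finset κ, ∀ F' : Finset κ, F ⊆ F' →
      ((F' : Set κ) ∩ q.1 = (F' : Set κ) ∩ q.2) → q.1 = q.2 := by
    rintro ⟨A, B⟩
    by_cases hAB : A = B
    · exact ⟨∅, fun _ _ _ => hAB⟩
    · have : ∃ x, ¬ (x ∈ A ↔ x ∈ B) := by
        by_contra hcon
        push Not at hcon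
        exact hAB (Set.ext hcon)
      obtain ⟨x, hx⟩ := this
      refine ⟨{x}, fun F' hF' h => ?_⟩
      exfalso
      apply hx
      have hxF : x ∈ F' := hF' (Finset.mem_singleton_self x)
      have := Set.ext_iff.mp h x
      simpa [hxF] using this
  choose F hF using h
  refine ⟨(s ×ˢ s).biUnion F, fun A hA B hB hAB => ?_⟩
  refine hF (A, B) _ ?_ hAB
  exact Finset.subset_biUnion_of_mem F (Finset.mem_product.mpr ⟨hA, hB⟩)

theorem neBot {κ : Type u} (J : Set (Set κ)) :
    (Filter.generate (Set.range fun q : Set κ × Finset κ => Y J q.1 ∩ D q.2)).NeBot := by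
  classical
  rw [Filter.generate_neBot_iff]
  intro t ht htf
  have hg : ∀ x : t, ∃ q : Set κ × Finset κ, Y J q.1 ∩ D q.2 = (x : Set (Idx κ)) := fun x => ht x.2
  choose g hg using hg
  have := htf.fintype
  let s : Finset (Set κ × Finset κ) := Finset.univ.image g
  obtain ⟨F0, hF0⟩ := separate (s.image Prod.fst)
  let F : Finset κ := F0 ∪ s.biUnion Prod.snd
  let G : Finset (Finset κ) := ((s.image Prod.fst).filter (fun A => A ∈ J)).image
    (fun A => F.filter (fun x => x ∈ A))
  have hFsep : ∀ A ∈ s.image Prod.fst, ∀ B ∈ s.image Prod.fst,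
      ((F : Set κ) ∩ A = (F : Set κ) ∩ B) → A = B := by
    intro A hA B hB h
    apply hF0 A hA B hB
    ext x
    constructor
    · rintro ⟨h1, h2⟩
      have : x ∈ (F : Set κ) ∩ A := ⟨by simp [F]; left; exact h1, h2⟩
      rw [h] at this
      exact ⟨h1, this.2⟩
    · rintro ⟨h1, h2⟩
      have : x ∈ (F : Set κ) ∩ B := ⟨by simp [F]; left; exact h1, h2⟩
      rw [← h] at this
      exact ⟨h1, this.2⟩
  refine ⟨(F, G), ?_⟩
  rw [Set.mem_sInter]
  intro x hx
  have hq : g ⟨x, hx⟩ ∈ s := Finset.mem_image_of_mem _ (Finset.mem_univ _)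
  rw [show x = Y J (g ⟨x, hx⟩).1 ∩ D (g ⟨x, hx⟩).2 from (hg ⟨x, hx⟩).symm]
  generalize g ⟨x, hx⟩ = q at hq
  have hqA : q.1 ∈ s.image Prod.fst := Finset.mem_image_of_mem _ hq
  refine ⟨?_, ?_⟩
  · unfold Y
    split_ifs with hJ
    · refine ⟨F.filter (fun x => x ∈ q.1), ?_, ?_⟩
      · exact Finset.mem_image_of_mem _ (Finset.mem_filter.mpr ⟨hqA, hJ⟩)
      · ext x; simp
    · rintro ⟨t', ht', h2⟩
      simp only [G, Finset.mem_image, Finset.mem_filter] at ht'
      obtain ⟨B, ⟨⟨q', hq', hq'B⟩, hBJ⟩, hB2⟩ := ht'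
      have hB : B ∈ s.image Prod.fst := Finset.mem_image.mpr ⟨q', hq', hq'B⟩
      apply hJ
      have : q.1 = B := by
        apply hFsep _ hqA _ hB
        rw [← h2, ← hB2]
        ext x; simp
      rw [this]; exact hBJ
  · change q.2 ⊆ F
    intro x hx
    simp only [F, Finset.mem_union, Finset.mem_biUnion]
    exact Or.inr ⟨q, hq, hx⟩

theorem exists_ultrafilters (κ : Type u) [Infinite κ] :
    ∃ U : Set (Set κ) → Ultrafilter (Idx κ), Function.Injective U ∧ ∀ J x, {x} ∉ U J := by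
  classical
  have h : ∀ J : Set (Set κ), ∃ U : Ultrafilter (Idx κ),
      ∀ (A : Set κ) (F : Finset κ), Y J A ∩ D F ∈ U := by
    intro J
    have := neBot J
    refine ⟨Ultrafilter.of (Filter.generate (Set.range fun q : Set κ × Finset κ => Y J q.1 ∩ D q.2)),
      fun A F => ?_⟩
    apply Ultrafilter.of_le
    exact Filter.mem_generate_of_mem ⟨(A, F), rfl⟩
  choose U hU using h
  refine ⟨U, ?_, ?_⟩
  · intro J J' hJ
    ext A
    have h1 : Y J A ∈ U J := mem_of_superset (hU J A ∅) Set.inter_subset_left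
    have h2 : Y J' A ∈ U J := by
      rw [hJ]; exact mem_of_superset (hU J' A ∅) Set.inter_subset_left
    unfold Y at h1 h2
    by_cases hA : A ∈ J <;> by_cases hA' : A ∈ J' <;> simp only [hA, hA', if_true, if_false] at h1 h2 ⊢
    · exact absurd h1 (Ultrafilter.compl_mem_iff_notMem.mp h2)
    · exact absurd h2 (Ultrafilter.compl_mem_iff_notMem.mp h1)
  · intro J x hx
    obtain ⟨a, ha⟩ := Infinite.exists_notMem_finset x.1
    have h1 : D {a} ∈ U J := mem_of_superset (hU J ∅ {a}) Set.inter_subset_right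
    have h2 : ({x} ∩ D {a} : Set (Idx κ)) ∈ U J := inter_mem hx h1
    obtain ⟨y, hy1, hy2⟩ := Ultrafilter.nonempty_of_mem h2
    have : y = x := hy1
    subst this
    exact ha (hy2 (Finset.mem_singleton_self a))

end Pool.Agent.Helper290.Ultra
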